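import Mathlib

/-!
Sums over the independent sets of a graph on `Fin N` given by bit masks, computed by recursion.
-/

set_option autoImplicit false

namespace N233.Occ

/-- sum of `f (k + |I|)` over the independent sets `I` inside the part of the mask `M` below `m`;
`A v` is the neighbourhood of `v` as a bit mask and `T` the full mask -/
def S (A : ℕ → ℕ) (T : ℕ) (f : ℕ → ℕ) : ℕ → ℕ → ℕ → ℕ
  | 0, _, k => f k
  | m + 1, M, k =>
    match M.testBit m with
    | true => S A T f m M k + S A T f m (M &&& (T - A m)) (k + 1)
    | false => S A T f m M k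

open Finset

/-- independent sets inside the part of the mask below `m` -/
def F {N : ℕ} (G : SimpleGraph (Fin N)) (m M : ℕ) (I : Finset (Fin N)) : Prop :=
  G.IsIndepSet (I : Set (Fin N)) ∧ ∀ i ∈ I, (i : ℕ) < m ∧ M.testBit i = true

open Classical in
theorem sum_F {N : ℕ} (G : SimpleGraph (Fin N)) (A : ℕ → ℕ) (T : ℕ)
    (hA : ∀ i j : Fin N, j < i → (G.Adj i j ↔ (T - A i).testBit j = false)) (f : ℕ → ℕ) :
    ∀ m M k : ℕ, m ≤ N →
      ∑ I ∈ (univ : Finset (Finset (Fin N))).filter (F G m M), f (k + I.card) = S A T f m M k := by
  intro m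
  induction m with
  | zero =>
    intro M k _
    have h : (univ : Finset (Finset (Fin N))).filter (F G 0 M) = {∅} := by
      ext I
      simp only [mem_filter, mem_univ, true_and, mem_singleton]
      unfold F
      constructor
      · rintro ⟨_, h⟩
        by_contra hne
        obtain ⟨i, hi⟩ := Finset.nonempty_iff_ne_empty.mpr hne
        exact absurd (h i hi).1 (Nat.not_lt_zero _)
      · rintro rfl
        refine ⟨?_, by simp⟩
        intro a ha
        simp at ha
    rw [h]
    simp [S]
  | succ m ih =>
    intro M k hm
    have hmN : m < N := hm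
    set v : Fin N := ⟨m, hmN⟩ with hv
    have hvm : (v : ℕ) = m := rfl
    have hlt : ∀ i : Fin N, (i : ℕ) < m + 1 → i ≠ v → (i : ℕ) < m := by
      intro i hi hne
      have : (i : ℕ) ≠ m := fun h => hne (Fin.ext h)
      omega
    have h1 : (univ : Finset (Finset (Fin N))).filter (fun I => F G (m + 1) M I ∧ v ∉ I) =
        (univ : Finset (Finset (Fin N))).filter (F G m M) := by
      ext I
      simp only [mem_filter, mem_univ, true_and]
      unfold F
      constructor
      · rintro ⟨⟨h1, h2⟩, h3⟩
        exact ⟨h1, fun i hi => ⟨hlt i (h2 i hi).1 (fun h => h3 (h ▸ hi)), (h2 i hi).2⟩⟩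
      · rintro ⟨h1, h2⟩
        refine ⟨⟨h1, fun i hi => ⟨(h2 i hi).1.trans (Nat.lt_succ_self _), (h2 i hi).2⟩⟩, ?_⟩
        intro hv'
        exact absurd (h2 v hv').1 (by simp [hvm])
    have hsplit : ∑ I ∈ (univ : Finset (Finset (Fin N))).filter (F G (m + 1) M), f (k + I.card) =
        ∑ I ∈ (univ : Finset (Finset (Fin N))).filter (F G m M), f (k + I.card) +
        ∑ I ∈ (univ : Finset (Finset (Fin N))).filter (fun I => F G (m + 1) M I ∧ v ∈ I),
          f (k + I.card) := by
      rw [← h1, ← Finset.filter_filter, ← Finset.filter_filter,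
        ← Finset.sum_filter_add_sum_filter_not _ (fun I : Finset (Fin N) => v ∈ I), Nat.add_comm]
    rw [hsplit, ih M k (Nat.le_of_succ_le hm)]
    cases hb : M.testBit m with
    | false =>
      have h2 : (univ : Finset (Finset (Fin N))).filter (fun I => F G (m + 1) M I ∧ v ∈ I) = ∅ := by
        apply Finset.filter_eq_empty_iff.mpr
        rintro I - ⟨⟨_, h⟩, hI⟩
        have := (h v hI).2
        rw [hvm, hb] at this
        exact absurd this (by decide)
      rw [h2]
      simp [S, hb]
    | true =>
      have h2 : ∑ I ∈ (univ : Finset (Finset (Fin N))).filter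
            (fun I => F G (m + 1) M I ∧ v ∈ I), f (k + I.card) =
          ∑ I ∈ (univ : Finset (Finset (Fin N))).filter (F G m (M &&& (T - A m))),
            f (k + 1 + I.card) := by
        refine Finset.sum_nbij' (fun I => I.erase v) (fun I => insert v I) ?_ ?_ ?_ ?_ ?_
        · intro I hI
          simp only [mem_filter, mem_univ, true_and] at hI ⊢
          unfold F at hI ⊢
          obtain ⟨⟨hi1, hi2⟩, hv'⟩ := hI
          refine ⟨?_, ?_⟩
          · intro a ha b hb' hab
            exact hi1 (Finset.mem_coe.mpr (Finset.mem_of_mem_erase (Finset.mem_coe.mp ha)))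
              (Finset.mem_coe.mpr (Finset.mem_of_mem_erase (Finset.mem_coe.mp hb'))) hab
          · intro i hi
            have hi' := Finset.mem_erase.mp hi
            have hlt' := hlt i (hi2 i hi'.2).1 hi'.1
            refine ⟨hlt', ?_⟩
            rw [Nat.testBit_and, (hi2 i hi'.2).2, Bool.true_and]
            have hna : ¬ G.Adj v i := hi1 (Finset.mem_coe.mpr hv') (Finset.mem_coe.mpr hi'.2)
              (fun h => hi'.1 h.symm)
            have := hA v i (by rw [Fin.lt_def]; exact hlt')
            rw [this] at hna
            exact Bool.eq_true_of_not_eq_false hna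
        · intro I hI
          simp only [mem_filter, mem_univ, true_and] at hI ⊢
          unfold F at hI ⊢
          obtain ⟨hi1, hi2⟩ := hI
          refine ⟨⟨?_, ?_⟩, Finset.mem_insert_self _ _⟩
          · have hnadj : ∀ i ∈ I, ¬ G.Adj v i := by
              intro i hi
              have h3 := (hi2 i hi).2
              rw [Nat.testBit_and, Bool.and_eq_true] at h3
              have := hA v i (by rw [Fin.lt_def]; exact (hi2 i hi).1)
              rw [this, hvm, h3.2]
              decide
            intro a ha b hb' hab
            rw [Finset.mem_coe, Finset.mem_insert] at ha hb'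
            rcases ha with rfl | ha
            · rcases hb' with rfl | hb'
              · exact absurd rfl hab
              · exact hnadj b hb'
            · rcases hb' with rfl | hb'
              · exact fun h => hnadj a ha h.symm
              · exact hi1 (Finset.mem_coe.mpr ha) (Finset.mem_coe.mpr hb') hab
          · intro i hi
            rcases Finset.mem_insert.mp hi with rfl | hi
            · exact ⟨Nat.lt_succ_self _, hb⟩
            · have h3 := (hi2 i hi).2
              rw [Nat.testBit_and, Bool.and_eq_true] at h3
              exact ⟨(hi2 i hi).1.trans (Nat.lt_succ_self _), h3.1⟩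
        · intro I hI
          simp only [mem_filter, mem_univ, true_and] at hI
          exact Finset.insert_erase hI.2
        · intro I hI
          simp only [mem_filter, mem_univ, true_and] at hI
          unfold F at hI
          apply Finset.erase_insert
          intro h
          exact absurd (hI.2 v h).1 (by simp [hvm])
        · intro I hI
          simp only [mem_filter, mem_univ, true_and] at hI
          have h3 := Finset.card_erase_add_one hI.2
          have h4 : k + 1 + (I.erase v).card = k + I.card := by omega
          simp only [h4]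
      rw [h2, ih _ _ (Nat.le_of_succ_le hm)]
      simp [S, hb]

/-- the sum over all independent sets -/
theorem sum_all {N : ℕ} (G : SimpleGraph (Fin N)) (A : ℕ → ℕ) (T : ℕ)
    (hA : ∀ i j : Fin N, j < i → (G.Adj i j ↔ (T - A i).testBit j = false))
    (hT : ∀ i : Fin N, T.testBit i = true) (f : ℕ → ℕ) (g : ℕ → ℝ)
    (hg : ∀ k, g k = (f k : ℝ)) (c : ℕ) (hc : S A T f N T 0 = c)
    (instF : Fintype (Finset (Fin N)))
    (inst : ∀ I : Finset (Fin N), Decidable (G.IsIndepSet (I : Set (Fin N)))) :
    (∑ I : Finset (Fin N), @ite ℝ (G.IsIndepSet (I : Set (Fin N))) (inst I) (g I.card) 0) =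
      (c : ℕ) := by
  classical
  have hi : instF = Finset.fintype := Subsingleton.elim _ _
  subst hi
  rw [← hc, ← sum_F G A T hA f N T 0 le_rfl, Nat.cast_sum, Finset.sum_filter]
  refine Finset.sum_congr rfl fun I _ => ?_
  have hF : F G N T I ↔ G.IsIndepSet (I : Set (Fin N)) := by
    unfold F
    constructor
    · exact fun h => h.1
    · exact fun h => ⟨h, fun i _ => ⟨i.2, hT i⟩⟩
  by_cases h : G.IsIndepSet (I : Set (Fin N))
  · rw [if_pos h, if_pos (hF.mpr h), hg, Nat.zero_add]
  · rw [if_neg h, if_neg (fun h' => h (hF.mp h'))]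

/-- the same for a type which is `Fin N` by definition -/
theorem sum_all' {N : ℕ} {V : Type} (hV : V = Fin N) (G : SimpleGraph V) (A : ℕ → ℕ) (T : ℕ)
    (hA : ∀ i j : V, (cast hV j : Fin N) < (cast hV i : Fin N) →
      (G.Adj i j ↔ (T - A ((cast hV i : Fin N) : ℕ)).testBit ((cast hV j : Fin N) : ℕ) = false))
    (hT : ∀ i : Fin N, T.testBit i = true) (f : ℕ → ℕ) (g : ℕ → ℝ)
    (hg : ∀ k, g k = (f k : ℝ)) (c : ℕ) (hc : S A T f N T 0 = c)
    (instF : Fintype (Finset V))
    (inst : ∀ I : Finset V, Decidable (G.IsIndepSet (I : Set V))) :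
    (∑ I : Finset V, @ite ℝ (G.IsIndepSet (I : Set V)) (inst I) (g I.card) 0) =
      (c : ℕ) := by
  subst hV
  exact sum_all G A T hA hT f g hg c hc instF inst

/-- graph of a family of masks -/
def mk (N : ℕ) (A : ℕ → ℕ) (hs : ∀ i j : Fin N, (A i).testBit j = (A j).testBit i)
    (hl : ∀ i : Fin N, (A i).testBit i = false) : SimpleGraph (Fin N) where
  Adj i j := (A i).testBit j = true
  symm := ⟨by
    intro i j h
    rw [hs j i]
    exact h⟩
  loopless := ⟨by
    intro i h
    rw [hl i] at h
    exact absurd h (by decide)⟩

end N233.Occ
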