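import Mathlib

set_option autoImplicit false

/-!
No uniform Lipschitz retractions `H(n) → H(n-1)` for infinite-dimensional Hilbert space.

Idea: for a unit vector `u` of a complex Hilbert space let `A_u = {ρ^l u : l < n}`, `ρ = exp(2πi/n)`
(a regular `n`-gon).  Push `r(A_u)` to the plane by the inner product with `u`.  The windows of a slowly shifting
vector `u_s = k^{-1/2} ∑_{j<k} ρ^j e_{s j}` and a Ramsey theorem for shift graphs give two such
vectors `u', u` with `u' ≈ ρ u`, whose planar images are also almost equal: so the planar image of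
`r(A_u)`, a set of at most `n-1` points near the `n`-gon, is almost invariant under the rotation
by `ρ`, which is absurd.
-/

namespace Pool.Agent.N233.Retr

open Finset

/-- Shift-graph Ramsey lemma. -/
theorem shift_ramsey (k : ℕ) : ∀ (C : Type) [Finite C] (c : (Fin (k+1) → ℕ) → C),
    ∃ S : Fin (k+2) → ℕ, StrictMono S ∧ c (S ∘ Fin.castSucc) = c (S ∘ Fin.succ) := by
  induction k with
  | zero =>
    intro C _ c
    obtain ⟨x, y, hne, hxy⟩ := Finite.exists_ne_map_eq_of_infinite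
      (fun a : ℕ => c (fun _ => a))
    wlog hlt : x < y generalizing x y
    · exact this y x hne.symm hxy.symm (lt_of_le_of_ne (not_lt.mp hlt) hne.symm)
    refine ⟨![x, y], ?_, ?_⟩
    · rw [Fin.strictMono_iff_lt_succ]
      intro i
      have : i = 0 := Subsingleton.elim _ _
      subst this
      simpa using hlt
    · have h1 : (![x, y] ∘ Fin.castSucc : Fin 1 → ℕ) = fun _ => x := by
        funext i
        have : i = 0 := Subsingleton.elim _ _
        subst this
        simp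
      have h2 : (![x, y] ∘ Fin.succ : Fin 1 → ℕ) = fun _ => y := by
        funext i
        have : i = 0 := Subsingleton.elim _ _
        subst this
        simp
      simp only [h1, h2]
      exact hxy
  | succ k ih =>
    intro C _ c
    obtain ⟨T, hT, hD⟩ := ih (Set C) (fun t => {x | ∃ a : ℕ,
      StrictMono (Fin.cons a t : Fin (k+2) → ℕ) ∧ x = c (Fin.cons a t)})
    have hTc : (Fin.cons (T 0) (T ∘ Fin.succ) : Fin (k+2) → ℕ) = T := by
      funext i
      refine Fin.cases ?_ (fun j => ?_) i <;> simp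
    have hmem : c T ∈ {x | ∃ a : ℕ,
        StrictMono (Fin.cons a (T ∘ Fin.succ) : Fin (k+2) → ℕ) ∧
          x = c (Fin.cons a (T ∘ Fin.succ))} :=
      ⟨T 0, by rw [hTc]; exact hT, by rw [hTc]⟩
    rw [← hD] at hmem
    obtain ⟨a, ha, hca⟩ := hmem
    refine ⟨Fin.cons a T, ?_, ?_⟩
    · rw [Fin.strictMono_iff_lt_succ]
      intro i
      refine Fin.cases ?_ (fun j => ?_) i
      · have := ha (show (0 : Fin (k+2)) < (Fin.succ 0) from Fin.succ_pos 0)
        simpa using this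
      · have : T j.castSucc < T j.succ := hT (Fin.castSucc_lt_succ)
        simpa [Fin.castSucc_succ] using this
    · have h1 : ((Fin.cons a T : Fin (k+3) → ℕ) ∘ Fin.castSucc : Fin (k+2) → ℕ)
          = Fin.cons a (T ∘ Fin.castSucc) := by
        funext i
        refine Fin.cases ?_ (fun j => ?_) i
        · simp
        · simp only [Function.comp_apply, Fin.cons_succ]
          rw [← Fin.succ_castSucc, Fin.cons_succ]
      have h2 : ((Fin.cons a T : Fin (k+3) → ℕ) ∘ Fin.succ : Fin (k+2) → ℕ) = T := by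
        funext i
        simp
      rw [h1, h2]
      exact hca.symm

/-- A set of fewer than `n` points of the plane, away from `0`, is not almost invariant under
a rotation of order `n`. -/
theorem planar (n : ℕ) (F : Finset ℂ) (hF : F.Nonempty) (hcard : F.card < n)
    (hF0 : ∀ z ∈ F, (1/2 : ℝ) ≤ ‖z‖) (σ : ℂ) (hσ : ‖σ‖ = 1) (d ε : ℝ)
    (hd : ∀ m : ℕ, 1 ≤ m → m < n → d ≤ ‖σ ^ m - 1‖)
    (hinv : ∀ z ∈ F, ∃ z' ∈ F, ‖z' - σ * z‖ ≤ ε) : d ≤ 4 * n * ε := by
  classical
  choose! f hf hfd using hinv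
  obtain ⟨z0, hz0⟩ := hF
  have hε : 0 ≤ ε := le_trans (norm_nonneg _) (hfd z0 hz0)
  have hmem : ∀ l : ℕ, f^[l] z0 ∈ F := by
    intro l
    induction l with
    | zero => simpa using hz0
    | succ l ih => rw [Function.iterate_succ_apply']; exact hf _ ih
  have hdist : ∀ l : ℕ, ‖f^[l] z0 - σ ^ l * z0‖ ≤ l * ε := by
    intro l
    induction l with
    | zero => simp
    | succ l ih =>
      rw [Function.iterate_succ_apply']
      have h1 := hfd _ (hmem l)
      have h2 : f (f^[l] z0) - σ ^ (l+1) * z0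
          = (f (f^[l] z0) - σ * f^[l] z0) + σ * (f^[l] z0 - σ ^ l * z0) := by ring
      rw [h2]
      refine (norm_add_le _ _).trans ?_
      rw [norm_mul, hσ, one_mul]
      push_cast
      linarith
  obtain ⟨i, hi, j, hj, hij, hEq⟩ := Finset.exists_ne_map_eq_of_card_lt_of_maps_to
    (s := Finset.range n) (t := F) (by simpa using hcard) (f := fun l => f^[l] z0)
    (fun l _ => hmem l)
  wlog hlt : i < j generalizing i j
  · exact this j hj i hi hij.symm hEq.symm (lt_of_le_of_ne (not_lt.mp hlt) hij.symm)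
  simp only [Finset.mem_range] at hi hj
  have h3 : ‖σ ^ j * z0 - σ ^ i * z0‖ ≤ 2 * n * ε := by
    have e : σ ^ j * z0 - σ ^ i * z0 = (f^[i] z0 - σ ^ i * z0) - (f^[j] z0 - σ ^ j * z0) := by
      have hEq' : f^[i] z0 = f^[j] z0 := hEq
      rw [hEq']; ring
    rw [e]
    refine (norm_sub_le _ _).trans ?_
    have hi' := hdist i
    have hj' := hdist j
    have a1 : (i : ℝ) ≤ n := by exact_mod_cast hi.le
    have a2 : (j : ℝ) ≤ n := by exact_mod_cast hj.le
    nlinarith
  have h4 : σ ^ j * z0 - σ ^ i * z0 = σ ^ i * ((σ ^ (j - i) - 1) * z0) := by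
    have : σ ^ j = σ ^ i * σ ^ (j - i) := by rw [← pow_add]; congr 1; omega
    rw [this]; ring
  rw [h4, norm_mul, norm_pow, hσ, one_pow, one_mul, norm_mul] at h3
  have h5 := hd (j - i) (by omega) (by omega)
  have h6 := hF0 z0 hz0
  have h7 : 0 ≤ ‖σ ^ (j - i) - 1‖ := norm_nonneg _
  nlinarith

section main

variable {E : Type} [NormedAddCommGroup E] [InnerProductSpace ℂ E]

open scoped Classical in
/-- The regular `n`-gon `{ρ^l u : l < n}`. -/
noncomputable def ngon (ρ : ℂ) (n : ℕ) (u : E) : Finset E :=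
  (Finset.range n).image (fun l => ρ ^ l • u)

theorem mem_ngon {ρ : ℂ} {n : ℕ} (hn : 0 < n) (hρ : ρ ^ n = 1) (u : E) (l : ℕ) :
    ρ ^ l • u ∈ ngon ρ n u := by
  classical
  unfold ngon
  rw [Finset.mem_image]
  exact ⟨l % n, Finset.mem_range.mpr (Nat.mod_lt _ hn), by rw [← pow_eq_pow_mod l hρ]⟩

theorem exists_of_mem_ngon {ρ : ℂ} {n : ℕ} {u x : E} (h : x ∈ ngon ρ n u) :
    ∃ l : ℕ, x = ρ ^ l • u := by
  classical
  unfold ngon at h
  rw [Finset.mem_image] at h
  obtain ⟨l, _, rfl⟩ := h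
  exact ⟨l, rfl⟩

theorem card_ngon_le {ρ : ℂ} {n : ℕ} {u : E} : (ngon ρ n u).card ≤ n := by
  classical
  unfold ngon
  exact Finset.card_image_le.trans (by simp)

theorem near_of_hausdorffDist {s t : Finset E} (hs : s.Nonempty) (ht : t.Nonempty) {a b : ℝ}
    (h : Metric.hausdorffDist (s : Set E) (t : Set E) ≤ a) (hab : a < b) :
    ∀ x ∈ s, ∃ y ∈ t, ‖x - y‖ < b := by
  intro x hx
  obtain ⟨y, hy, hxy⟩ := Metric.exists_dist_lt_of_hausdorffDist_lt (s := (s : Set E))
    (t := (t : Set E)) (x := x) (r := b) (by simpa using hx) (lt_of_le_of_lt h hab)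
    (Metric.hausdorffEDist_ne_top_of_nonempty_of_bounded (by simpa using hs) (by simpa using ht)
      s.finite_toSet.isBounded t.finite_toSet.isBounded)
  exact ⟨y, by simpa using hy, by rwa [dist_eq_norm] at hxy⟩

theorem norm_pow_smul {ρ : ℂ} (h1 : ‖ρ‖ = 1) (l : ℕ) (v : E) : ‖ρ ^ l • v‖ = ‖v‖ := by
  rw [norm_smul, norm_pow, h1, one_pow, one_mul]

theorem hausdorff_ngon {ρ : ℂ} {n : ℕ} (hn : 0 < n) (hρ : ρ ^ n = 1) (h1 : ‖ρ‖ = 1)
    {u u' : E} {η : ℝ} (h : ‖u' - ρ • u‖ ≤ η) :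
    Metric.hausdorffDist (ngon ρ n u : Set E) (ngon ρ n u' : Set E) ≤ η := by
  have hη : 0 ≤ η := (norm_nonneg _).trans h
  refine Metric.hausdorffDist_le_of_mem_dist hη ?_ ?_
  · intro x hx
    obtain ⟨l, rfl⟩ := exists_of_mem_ngon (by simpa using hx)
    refine ⟨ρ ^ (l + (n - 1)) • u', by simpa using mem_ngon hn hρ u' _, ?_⟩
    rw [dist_eq_norm]
    have e : ρ ^ l • u = ρ ^ (l + (n - 1)) • (ρ • u) := by
      rw [smul_smul, ← pow_succ]
      congr 1
      have : l + (n - 1) + 1 = l + n := by omega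
      rw [this, pow_add, hρ, mul_one]
    rw [e, ← smul_sub, norm_pow_smul h1, norm_sub_rev]
    exact h
  · intro x hx
    obtain ⟨l, rfl⟩ := exists_of_mem_ngon (by simpa using hx)
    refine ⟨ρ ^ (l + 1) • u, by simpa using mem_ngon hn hρ u _, ?_⟩
    rw [dist_eq_norm]
    have e : ρ ^ (l + 1) • u = ρ ^ l • (ρ • u) := by
      rw [smul_smul, ← pow_succ]
    rw [e, ← smul_sub, norm_pow_smul h1]
    exact h

/-- Every point of `r(A_u)` is within `1/2` of `A_u`. -/
theorem near_ngon {ρ : ℂ} {n : ℕ} (hn : 2 ≤ n) (hρ : IsPrimitiveRoot ρ n) {C : ℝ} (hC : 0 ≤ C)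
    {r : Finset E → Finset E}
    (h1 : ∀ s : Finset E, s.Nonempty → s.card ≤ n → (r s).Nonempty ∧ (r s).card ≤ n - 1)
    (h2 : ∀ s : Finset E, s.Nonempty → s.card ≤ n - 1 → r s = s)
    (h3 : ∀ s t : Finset E, s.Nonempty → s.card ≤ n → t.Nonempty → t.card ≤ n →
              Metric.hausdorffDist ((r s : Finset E) : Set E) ((r t : Finset E) : Set E)
                ≤ C * Metric.hausdorffDist ((s : Finset E) : Set E) ((t : Finset E) : Set E))
    (hδ : (C + 1) * ‖ρ - 1‖ ≤ 1/2) {u : E} (hu : ‖u‖ = 1) :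
    ∀ y ∈ r (ngon ρ n u), ∃ l : ℕ, ‖y - ρ ^ l • u‖ < 1/2 := by
  classical
  have hn0 : 0 < n := by omega
  have hn1 : ‖ρ‖ = 1 := hρ.norm'_eq_one (by omega)
  have hρ1 : ρ ≠ 1 := hρ.ne_one (by omega)
  have hδ0 : 0 < ‖ρ - 1‖ := norm_pos_iff.mpr (sub_ne_zero.mpr hρ1)
  -- the smaller polygon
  set A' : Finset E := (Finset.range (n - 1)).image (fun l => ρ ^ l • u) with hA'
  have hA'ne : A'.Nonempty := by
    rw [hA']
    exact (Finset.nonempty_range_iff.mpr (by omega)).image _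
  have hA'card : A'.card ≤ n - 1 := Finset.card_image_le.trans (by simp)
  have hAne : (ngon ρ n u).Nonempty := ⟨_, mem_ngon hn0 hρ.pow_eq_one u 0⟩
  have hH : Metric.hausdorffDist (ngon ρ n u : Set E) (A' : Set E) ≤ ‖ρ - 1‖ := by
    refine Metric.hausdorffDist_le_of_mem_dist hδ0.le ?_ ?_
    · intro x hx
      have hx' : x ∈ ngon ρ n u := by simpa using hx
      unfold ngon at hx'
      rw [Finset.mem_image] at hx'
      obtain ⟨l, hl, rfl⟩ := hx'
      rw [Finset.mem_range] at hl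
      by_cases hl' : l < n - 1
      · refine ⟨ρ ^ l • u, ?_, by simp⟩
        rw [hA']
        simp only [Finset.coe_image, Set.mem_image]
        exact ⟨l, by simpa using hl', rfl⟩
      · refine ⟨ρ ^ (l - 1) • u, ?_, ?_⟩
        · rw [hA']
          simp only [Finset.coe_image, Set.mem_image]
          exact ⟨l - 1, by simp; omega, rfl⟩
        · rw [dist_eq_norm]
          have e : ρ ^ l • u = ρ ^ (l - 1) • (ρ • u) := by
            rw [smul_smul, ← pow_succ]
            congr 2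
            omega
          rw [e, ← smul_sub, norm_pow_smul hn1]
          have : ρ • u - u = (ρ - 1) • u := by rw [sub_smul, one_smul]
          rw [this, norm_smul, hu, mul_one]
    · intro x hx
      rw [hA'] at hx
      simp only [Finset.coe_image, Set.mem_image] at hx
      obtain ⟨l, hl, rfl⟩ := hx
      exact ⟨ρ ^ l • u, by simpa using mem_ngon hn0 hρ.pow_eq_one u l, by simp [hδ0.le]⟩
  have h4 := h3 (ngon ρ n u) A' hAne card_ngon_le hA'ne (by omega)
  rw [h2 A' hA'ne hA'card] at h4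
  have h5 : Metric.hausdorffDist ((r (ngon ρ n u) : Finset E) : Set E) (A' : Set E)
      ≤ C * ‖ρ - 1‖ := h4.trans (mul_le_mul_of_nonneg_left hH hC)
  intro y hy
  obtain ⟨y', hy', hyy⟩ := near_of_hausdorffDist (h1 _ hAne card_ngon_le).1 hA'ne h5
    (b := (C + 1) * ‖ρ - 1‖) (by nlinarith) y hy
  rw [hA', Finset.mem_image] at hy'
  obtain ⟨l, _, rfl⟩ := hy'
  exact ⟨l, lt_of_lt_of_le hyy hδ⟩

/-- The window vector. -/
noncomputable def vec (ρ : ℂ) (e : ℕ → E) {k : ℕ} (s : Fin (k+1) → ℕ) : E :=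
  (((Real.sqrt (k+1))⁻¹ : ℝ) : ℂ) • ∑ j : Fin (k+1), ρ ^ (j : ℕ) • e (s j)

theorem norm_vec {ρ : ℂ} (h1 : ‖ρ‖ = 1) {e : ℕ → E} (he : Orthonormal ℂ e) {k : ℕ}
    {s : Fin (k+1) → ℕ} (hs : Function.Injective s) : ‖vec ρ e s‖ = 1 := by
  have ho := he.comp s hs
  have hsum : ‖∑ j : Fin (k+1), ρ ^ (j : ℕ) • e (s j)‖ ^ 2 = (k+1 : ℝ) := by
    have h := ho.inner_sum (fun j : Fin (k+1) => ρ ^ (j : ℕ)) (fun j => ρ ^ (j : ℕ)) Finset.univ
    simp only [Function.comp_apply] at h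
    rw [inner_self_eq_norm_sq_to_K] at h
    have h' : ∀ j : Fin (k+1), (starRingEnd ℂ) (ρ ^ (j : ℕ)) * ρ ^ (j : ℕ) = 1 := by
      intro j
      rw [← Complex.normSq_eq_conj_mul_self, Complex.normSq_eq_norm_sq, norm_pow, h1]
      simp
    rw [Finset.sum_congr rfl (fun j _ => h' j)] at h
    simp only [Finset.sum_const, Finset.card_univ, Fintype.card_fin, nsmul_eq_mul,
      mul_one] at h
    have h9 : ((‖∑ j : Fin (k+1), ρ ^ (j : ℕ) • e (s j)‖ ^ 2 : ℝ) : ℂ) = ((k+1 : ℝ) : ℂ) := by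
      push_cast
      push_cast at h
      exact h
    exact_mod_cast h9
  have hs2 : ‖∑ j : Fin (k+1), ρ ^ (j : ℕ) • e (s j)‖ = Real.sqrt (k+1) := by
    rw [← hsum, Real.sqrt_sq (norm_nonneg _)]
  unfold vec
  rw [norm_smul, hs2, Complex.norm_real, norm_inv, Real.norm_eq_abs,
    abs_of_nonneg (Real.sqrt_nonneg _)]
  exact inv_mul_cancel₀ (by positivity)

theorem vec_shift {ρ : ℂ} (h1 : ‖ρ‖ = 1) {e : ℕ → E} (he : Orthonormal ℂ e) {k : ℕ}
    (S : Fin (k+2) → ℕ) :
    ‖vec ρ e (S ∘ Fin.castSucc) - ρ • vec ρ e (S ∘ Fin.succ)‖ ≤ 2 / Real.sqrt (k+1) := by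
  have key : vec ρ e (S ∘ Fin.castSucc) - ρ • vec ρ e (S ∘ Fin.succ)
      = (((Real.sqrt (k+1))⁻¹ : ℝ) : ℂ) •
        (ρ ^ (0:ℕ) • e (S 0) - ρ ^ (k+1) • e (S (Fin.last (k+1)))) := by
    have hg1 := Fin.sum_univ_castSucc (fun i : Fin (k+2) => ρ ^ (i : ℕ) • e (S i))
    have hg2 := Fin.sum_univ_succ (fun i : Fin (k+2) => ρ ^ (i : ℕ) • e (S i))
    simp only [Fin.val_castSucc, Fin.val_last, Fin.val_zero, Fin.val_succ] at hg1 hg2
    unfold vec
    rw [smul_comm, ← smul_sub]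
    congr 1
    rw [Finset.smul_sum]
    simp only [Function.comp_apply, smul_smul, ← pow_succ']
    rw [hg1] at hg2
    have : ∑ i : Fin (k+1), ρ ^ (i : ℕ) • e (S i.castSucc)
        = ρ ^ 0 • e (S 0) + ∑ i : Fin (k+1), ρ ^ ((i : ℕ) + 1) • e (S i.succ)
          - ρ ^ (k + 1) • e (S (Fin.last (k+1))) := by
      rw [← hg2]; abel
    rw [this]
    abel
  rw [key, norm_smul, Complex.norm_real, norm_inv, Real.norm_eq_abs,
    abs_of_nonneg (Real.sqrt_nonneg _), inv_mul_eq_div]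
  gcongr
  refine (norm_sub_le _ _).trans ?_
  rw [norm_pow_smul h1, norm_pow_smul h1, he.1, he.1]
  norm_num

theorem main_contra {ρ : ℂ} {n : ℕ} (hn : 2 ≤ n) (hρ : IsPrimitiveRoot ρ n) {C : ℝ} (hC : 0 ≤ C)
    {e : ℕ → E} (he : Orthonormal ℂ e)
    {r : Finset E → Finset E}
    (h1 : ∀ s : Finset E, s.Nonempty → s.card ≤ n → (r s).Nonempty ∧ (r s).card ≤ n - 1)
    (h2 : ∀ s : Finset E, s.Nonempty → s.card ≤ n - 1 → r s = s)
    (h3 : ∀ s t : Finset E, s.Nonempty → s.card ≤ n → t.Nonempty → t.card ≤ n →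
              Metric.hausdorffDist ((r s : Finset E) : Set E) ((r t : Finset E) : Set E)
                ≤ C * Metric.hausdorffDist ((s : Finset E) : Set E) ((t : Finset E) : Set E))
    (hδ : (C + 1) * ‖ρ - 1‖ ≤ 1/2) : False := by
  classical
  have hn0 : 0 < n := by omega
  have hnr : (0:ℝ) < n := by exact_mod_cast hn0
  have hn1 : ‖ρ‖ = 1 := hρ.norm'_eq_one (by omega)
  have hρn := hρ.pow_eq_one
  -- lower bound for |σ^m - 1|
  set σ : ℂ := (starRingEnd ℂ) ρ with hσ
  have hσ1 : ‖σ‖ = 1 := by rw [hσ, Complex.norm_conj, hn1]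
  obtain ⟨d, hd0, hd⟩ : ∃ d : ℝ, 0 < d ∧ ∀ m : ℕ, 1 ≤ m → m < n → d ≤ ‖σ ^ m - 1‖ := by
    have hpos : ∀ m ∈ (Finset.range n).filter (fun m => 1 ≤ m), 0 < ‖σ ^ m - 1‖ := by
      intro m hm
      simp only [Finset.mem_filter, Finset.mem_range] at hm
      rw [norm_pos_iff, sub_ne_zero]
      intro hcon
      have : ρ ^ m = 1 := by
        have := congrArg (starRingEnd ℂ) hcon
        simpa [hσ] using this
      exact hρ.pow_ne_one_of_pos_of_lt (by omega) hm.1 this
    have hne : ((Finset.range n).filter (fun m => 1 ≤ m)).Nonempty := ⟨1, by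
      simp only [Finset.mem_filter, Finset.mem_range]; omega⟩
    refine ⟨((Finset.range n).filter (fun m => 1 ≤ m)).inf' hne (fun m => ‖σ ^ m - 1‖),
      ?_, ?_⟩
    · rw [Finset.lt_inf'_iff]
      exact hpos
    · intro m hm1 hm2
      exact Finset.inf'_le _ (by simp only [Finset.mem_filter, Finset.mem_range]; omega)
  -- parameters
  set ε : ℝ := d / (32 * n) with hε
  have hε0 : 0 < ε := by positivity
  obtain ⟨k, hk⟩ : ∃ k : ℕ, (C + 3) * (2 / Real.sqrt (k+1)) * (16 * n) < d := by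
    obtain ⟨k, hk⟩ := exists_nat_gt (((C + 3) * 2 * (16 * n) / d) ^ 2)
    refine ⟨k, ?_⟩
    have hA : 0 < (C + 3) * 2 * (16 * n) / d := by positivity
    have hs : (C + 3) * 2 * (16 * n) / d < Real.sqrt (k+1) := by
      rw [Real.lt_sqrt hA.le]
      linarith
    have hs0 : 0 < Real.sqrt (k+1) := by positivity
    rw [div_lt_iff₀ hd0] at hs
    have e1 : (C + 3) * (2 / Real.sqrt (k+1)) * (16 * n)
        = ((C + 3) * 2 * (16 * n)) / Real.sqrt (k+1) := by
      field_simp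
    rw [e1, div_lt_iff₀ hs0]
    linarith
  -- the net
  obtain ⟨t, htfin, ht⟩ := Metric.totallyBounded_iff.mp
    (isCompact_closedBall (0:ℂ) 2).totallyBounded ε hε0
  have : Finite t := htfin.to_subtype
  let F : E → Finset ℂ := fun u => (r (ngon ρ n u)).image (fun y => inner ℂ u y)
  let c : (Fin (k+1) → ℕ) → Set t := fun s => {y | ∃ z ∈ F (vec ρ e s), dist z (y:ℂ) < ε}
  obtain ⟨S, hS, hSc⟩ := shift_ramsey k (Set t) c
  set u' : E := vec ρ e (S ∘ Fin.castSucc) with hu'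
  set u : E := vec ρ e (S ∘ Fin.succ) with hu
  have hu'1 : ‖u'‖ = 1 := norm_vec hn1 he (hS.comp Fin.strictMono_castSucc).injective
  have hu1 : ‖u‖ = 1 := norm_vec hn1 he (hS.comp Fin.strictMono_succ).injective
  set η : ℝ := 2 / Real.sqrt (k+1) with hη
  have hη0 : 0 < η := by positivity
  have hshift : ‖u' - ρ • u‖ ≤ η := vec_shift hn1 he S
  have hAne : ∀ v : E, (ngon ρ n v).Nonempty := fun v => ⟨_, mem_ngon hn0 hρn v 0⟩
  -- norm bounds
  have hnorm : ∀ v : E, ‖v‖ = 1 → ∀ y ∈ r (ngon ρ n v), ‖y‖ ≤ 3/2 := by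
    intro v hv y hy
    obtain ⟨l, hl⟩ := near_ngon hn hρ hC h1 h2 h3 hδ hv y hy
    have : y = (y - ρ ^ l • v) + ρ ^ l • v := by abel
    rw [this]
    refine (norm_add_le _ _).trans ?_
    rw [norm_pow_smul hn1, hv]
    linarith
  have hlow : ∀ z ∈ F u, (1/2 : ℝ) ≤ ‖z‖ := by
    intro z hz
    obtain ⟨y, hy, rfl⟩ := Finset.mem_image.mp hz
    obtain ⟨l, hl⟩ := near_ngon hn hρ hC h1 h2 h3 hδ hu1 y hy
    have e1 : inner ℂ u y = ρ ^ l + inner ℂ u (y - ρ ^ l • u) := by
      rw [inner_sub_right, inner_smul_right, inner_self_eq_norm_sq_to_K, hu1]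
      simp
    rw [e1]
    have h4 : ‖inner ℂ u (y - ρ ^ l • u)‖ ≤ 1/2 := by
      refine (norm_inner_le_norm _ _).trans ?_
      rw [hu1, one_mul]
      exact hl.le
    have h5 : ‖ρ ^ l‖ = 1 := by rw [norm_pow, hn1, one_pow]
    have h6 : ‖ρ ^ l‖ ≤ ‖ρ ^ l + inner ℂ u (y - ρ ^ l • u)‖ + ‖inner ℂ u (y - ρ ^ l • u)‖ := by
      have := norm_sub_le (ρ ^ l + inner ℂ u (y - ρ ^ l • u)) (inner ℂ u (y - ρ ^ l • u))
      simpa using this
    linarith
  have hcardF : (F u).card < n := by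
    refine lt_of_le_of_lt (Finset.card_image_le.trans (h1 _ (hAne u) card_ngon_le).2) ?_
    omega
  have hFne : (F u).Nonempty := (h1 _ (hAne u) card_ngon_le).1.image _
  -- almost invariance
  have hinv : ∀ z ∈ F u, ∃ z' ∈ F u, ‖z' - σ * z‖ ≤ (C + 3) * η + 2 * ε := by
    intro z hz
    obtain ⟨y, hy, rfl⟩ := Finset.mem_image.mp hz
    have hHd := h3 (ngon ρ n u) (ngon ρ n u') (hAne u) card_ngon_le (hAne u') card_ngon_le
    have hHd2 := hHd.trans (mul_le_mul_of_nonneg_left (hausdorff_ngon hn0 hρn hn1 hshift) hC)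
    obtain ⟨y', hy', hyy⟩ := near_of_hausdorffDist (h1 _ (hAne u) card_ngon_le).1
      (h1 _ (hAne u') card_ngon_le).1 hHd2 (b := (C + 1) * η) (by nlinarith) y hy
    have hz' : inner ℂ u' y' ∈ F u' := Finset.mem_image_of_mem _ hy'
    have hy'n := hnorm u' hu'1 y' hy'
    have h7 : ‖inner ℂ u' y' - σ * inner ℂ u y‖ ≤ (C + 3) * η := by
      have e2 : inner ℂ u' y' - σ * inner ℂ u y
          = inner ℂ (u' - ρ • u) y' + inner ℂ (ρ • u) (y' - y) := by
        rw [inner_sub_left, inner_sub_right, inner_smul_left, inner_smul_left]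
        ring
      rw [e2]
      refine (norm_add_le _ _).trans ?_
      have a1 := norm_inner_le_norm (𝕜 := ℂ) (u' - ρ • u) y'
      have a2 := norm_inner_le_norm (𝕜 := ℂ) (ρ • u) (y' - y)
      have a3 : ‖ρ • u‖ = 1 := by rw [norm_smul, hn1, hu1, one_mul]
      rw [a3, one_mul, norm_sub_rev] at a2
      have a4 : ‖u' - ρ • u‖ * ‖y'‖ ≤ η * (3/2) :=
        mul_le_mul hshift hy'n (norm_nonneg _) hη0.le
      nlinarith
    -- the net
    have hball : inner ℂ u' y' ∈ Metric.closedBall (0:ℂ) 2 := by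
      rw [mem_closedBall_zero_iff]
      refine (norm_inner_le_norm _ _).trans ?_
      rw [hu'1, one_mul]
      linarith
    have := ht hball
    simp only [Set.mem_iUnion, Metric.mem_ball, exists_prop] at this
    obtain ⟨p, hp, hpz⟩ := this
    have hmem : (⟨p, hp⟩ : t) ∈ c (S ∘ Fin.castSucc) := ⟨inner ℂ u' y', hz', hpz⟩
    rw [hSc] at hmem
    obtain ⟨z'', hz'', hz''p⟩ := hmem
    refine ⟨z'', hz'', ?_⟩
    have e3 : z'' - σ * inner ℂ u y = (z'' - inner ℂ u' y') + (inner ℂ u' y' - σ * inner ℂ u y) := by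
      ring
    rw [e3]
    refine (norm_add_le _ _).trans ?_
    have h8 : ‖z'' - inner ℂ u' y'‖ ≤ 2 * ε := by
      rw [← dist_eq_norm]
      have := dist_triangle z'' p (inner ℂ u' y')
      rw [dist_comm p] at this
      simp only at hz''p
      linarith
    linarith
  have hfin := planar n (F u) hFne hcardF hlow σ hσ1 d ((C + 3) * η + 2 * ε) hd hinv
  have e4 : 4 * (n:ℝ) * ((C + 3) * η + 2 * ε) = ((C + 3) * η * (16 * n)) / 4 + d / 4 := by
    rw [hε]
    field_simp
    ring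
  rw [e4] at hfin
  linarith

end main

end Pool.Agent.N233.Retr
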